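import Mathlib
import Pool.Agent.H.MP_c7fa02_an.D

namespace Pool.Agent.Results.MP_c7fa02_an.Q1
open Polynomial Pool.Agent.H.MP_c7fa02_an

theorem result (P : ℂ[X]) (hP : 1 ≤ P.natDegree) (h0 : ¬ P.IsRoot 0)
    (h : (∀ ζ, P.IsRoot ζ → P.rootMultiplicity ζ⁻¹ = P.rootMultiplicity ζ) ∨
      (∀ ζ, P.IsRoot ζ → P.rootMultiplicity (starRingEnd ℂ ζ)⁻¹ = P.rootMultiplicity ζ))
    (A : ℝ) (hA : IsGreatest {x : ℝ | ∃ k, k ≤ P.natDegree ∧ x = ‖P.coeff k‖} A) :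
    ∃ w₀ : ℂ, Metric.ball w₀ A ⊆ (fun z => P.eval z) '' Metric.ball 0 1 := by
  obtain ⟨k, hk, rfl⟩ := hA.1
  have p0 : P ≠ 0 := by
    rintro rfl
    simp at hP
  exact main hP rfl (symm_of p0 h0 h) hk

end Pool.Agent.Results.MP_c7fa02_an.Q1
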